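import Pool.Agent.NH25.JM.Main
import Pool.Agent.NH25.FR.Cnt

/-!
# The modular Schanuel conjecture for isogeny classes: translates of an algebraic invariant in short windows

Let `j` be the modular invariant, `v_1, …, v_k` points of the upper half-plane for which the numbers `j(v_l)` are algebraic, and
`z_l = (a_l v_l + b_l) / (c_l v_l + d_l)` any points equivalent to them under `GL_2^+(ℚ)`; that is, `z_l` belongs to an elliptic
curve which is isogenous to the curve with invariant `j(v_l)`. Unless `z_l` is a CM point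
or two of the points are equivalent, the modular Schanuel conjecture predicts that `z_1, …, z_k` are algebraically
independent.

We say that there is
no relation of degree `δ` over the number fields of degree at most `D` (`NoRelations`) if for all points `z_l` as above (there
is no bound for the degrees of the isogenies, or for the coefficients of the matrices), all number fields `K` of degree
at most `D` and all complex numbers `w_1, …, w_q` which were given in advance, every polynomial of degree at most `δ` over `K`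
which vanishes at `2 π i, w_1, …, w_q, z_1, …, z_k` is trivial: it is zero after the substitution of the numbers
`2 π i, w_1, …, w_q`.

**Theorem.** For all `w`, `δ`, `D`, `m`, `A` there are `M` and `E` such that for all tuples `ξ = (ξ_1, …, ξ_k)` of algebraic
numbers, `ξ_l` a root of a nonzero integral polynomial of degree at most `m` with coefficients of size at most `|ξ_l| ^ A`, and
all `H_l` with `(H_l + 2) ^ E ≤ |ξ_l|`, there is no relation of degree `δ` over the number fields of degree at most `D` for the
invariants `j(v_l) = ξ_l + g_l`, `g_l ∈ ℤ`, `|g_l| ≤ H_l`, with at most `M ∑_l ∏_{l' ≠ l} (2 H_{l'} + 1)` exceptions (for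
`k = 1`: at most `M` exceptions among the `2 H + 1` translates).

The windows are shorter than any power of `|ξ|`, so the counting theorem of `AlgebraicInvariants.lean` says nothing about
them. In the starting library (`IsogenyWindows`) the `ξ_l` are rational integers; here they are any algebraic numbers of
bounded degree and polynomially bounded height.

Proof. For `|j(v)|` large, `2 π i z` is a quotient of linear combinations of `F(1 / j)` and `G(1 / j) - t F(1 / j)` with
`exp(t) = j(v)`, where `F = 1 + 60 / j + …` and `F t - G` are the solutions of the Picard-Fuchs equation at `∞`. The general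
theorem for G-functions and logarithms over all number fields of bounded degree (`Pool/Agent/NH25/UF`, based on the linear
independence of values of G-functions at translates of an algebraic number, `Pool/Agent/NH25/DL`) applies, and shows that
at all but few points all relations are values of functional relations with constants. The functions
`F(z_l)`, `G(z_l) - t_l F(z_l)` are algebraically independent over `ℂ(z_1, …, z_k)`
(`Pool/Agent/NH25/JM`), which leaves only the relations between the constants (`Pool/Agent/NH25/FR`).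
-/

set_option autoImplicit false

open Filter

namespace Pool.Agent.Results.MP_47914d_nt.AlgebraicInvariantWindows

/-- the normalised Eisenstein series of weight `4` -/
noncomputable def E4 (τ : ℂ) : ℂ :=
  1 + 240 * ∑' m : ℕ, ((ArithmeticFunction.sigma 3 (m + 1) : ℕ) : ℂ) *
    Complex.exp (2 * (Real.pi : ℂ) * Complex.I * ((m : ℂ) + 1) * τ)

/-- the normalised Eisenstein series of weight `6` -/
noncomputable def E6 (τ : ℂ) : ℂ :=
  1 - 504 * ∑' m : ℕ, ((ArithmeticFunction.sigma 5 (m + 1) : ℕ) : ℂ) *
    Complex.exp (2 * (Real.pi : ℂ) * Complex.I * ((m : ℂ) + 1) * τ)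

/-- the modular invariant `j = q⁻¹ + 744 + 196884 q + ⋯` -/
noncomputable def J (τ : ℂ) : ℂ := 1728 * E4 τ ^ 3 / (E4 τ ^ 3 - E6 τ ^ 2)

/-- `z` is equivalent under `GL_2^+(ℚ)` to a point `v` of the upper half-plane with `j(v) = x`. -/
def Isogenous (x z : ℂ) : Prop :=
  ∃ v : ℂ, 0 < v.im ∧ J v = x ∧ ∃ a b c d : ℚ, 0 < a * d - b * c ∧ z = ((a : ℂ) * v + b) / ((c : ℂ) * v + d)

/-- The numbers `2 π i, w_1, …, w_q`. -/
noncomputable def constants {q : ℕ} (w : Fin q → ℂ) : Option (Fin q) → ℂ := fun o => o.elim (2 * Real.pi * Complex.I) w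

/-- The numbers `2 π i, w_1, …, w_q` and `k` variables. -/
noncomputable def generic {q k : ℕ} (w : Fin q → ℂ) : Option (Fin q) ⊕ Fin k → MvPolynomial (Fin k) ℂ :=
  Sum.elim (fun o => MvPolynomial.C (constants w o)) MvPolynomial.X

/-- Whenever `z_1, …, z_k` are isogenous to points of the upper half-plane with the invariants `x_1, …, x_k`, every polynomial
of degree at most `δ` over a number field of degree at most `D` which vanishes at `2 π i, w_1, …, w_q, z_1, …, z_k` is zero after
the substitution of `2 π i, w_1, …, w_q`. -/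
def NoRelations {q k : ℕ} (w : Fin q → ℂ) (D δ : ℕ) (x : Fin k → ℂ) : Prop :=
  ∀ z : Fin k → ℂ, (∀ l, Isogenous (x l) (z l)) →
  ∀ K : IntermediateField ℚ ℂ, FiniteDimensional ℚ K → Module.finrank ℚ K ≤ D →
  ∀ P : MvPolynomial (Option (Fin q) ⊕ Fin k) K, P.totalDegree ≤ δ →
    MvPolynomial.aeval (Sum.elim (constants w) z) P = 0 → MvPolynomial.aeval (generic (k := k) w) P = 0

/-- `ξ` is a root of a nonzero integral polynomial of degree at most `m` with coefficients of size at most `|ξ| ^ A` -/
def Height (m A : ℕ) (ξ : ℂ) : Prop :=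
  ∃ f : Polynomial ℤ, f ≠ 0 ∧ f.natDegree ≤ m ∧ (∀ j, |(f.coeff j : ℝ)| ≤ ‖ξ‖ ^ A) ∧ Polynomial.aeval ξ f = 0

/-- the translations `g` in the window with the half side lengths `H_l` for which there are relations for the invariants
`ξ_l + g_l` -/
def Exceptional {q k : ℕ} (w : Fin q → ℂ) (D δ : ℕ) (ξ : Fin k → ℂ) (H : Fin k → ℕ) : Set (Fin k → ℤ) :=
  {g | (∀ l, |g l| ≤ (H l : ℤ)) ∧ ¬ NoRelations w D δ fun l => ξ l + (g l : ℂ)}

section proof

open Pool.Agent.NH25.DL Pool.Agent.Y921.DB Pool.Agent.Y916 Pool.Agent.NH25.JM Pool.Agent.NH25.FR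

lemma J_eq : J = Pool.Agent.TH21.MS.jj := by
  have h4 : E4 = Pool.Agent.TH21.MS.E4 := funext Pool.Agent.Y120.J.E4_same
  have h6 : E6 = Pool.Agent.TH21.MS.E6 := funext Pool.Agent.Y120.J.E6_same
  funext τ
  unfold J Pool.Agent.TH21.MS.jj
  rw [h4, h6]

/-- the radius -/
theorem noRel {q k : ℕ} (w : Fin q → ℂ) : ∃ r₀ : ℝ, 0 < r₀ ∧ ∀ r : ℝ, 0 < r → r ≤ r₀ → ∀ (D δ : ℕ) (s : Fin k → ℂ),
    (∀ l, s l ≠ 0) → Pool.Agent.NH25.UF.Pnt D (Pc (constants w) fJ) r (δ + k * (2 * δ)) s →
    NoRelations w D δ fun l => 1 / s l := by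
  obtain ⟨r₀, hr₀, h⟩ := relJ (k := k) (cw := constants w) (o₀ := none) rfl
  refine ⟨r₀, hr₀, fun r hr hrr D δ s hs hP z hz K hK hKD P hPd h0 => ?_⟩
  have h1 := h r hr hrr D δ s hs hP z (fun l => by
    obtain ⟨v, hv, hvx, hv2⟩ := hz l
    rw [J_eq] at hvx
    exact ⟨v, hv, hvx, hv2⟩) K hK hKD (P.map (algebraMap K ℂ))
    ((Finset.sup_mono (MvPolynomial.support_map_subset _ _)).trans hPd) (fun e => by
      rw [MvPolynomial.coeff_map]
      exact (P.coeff e).2) (by
      rw [← MvPolynomial.aeval_eq_eval, MvPolynomial.aeval_map_algebraMap]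
      exact h0)
  unfold sp at h1
  rw [MvPolynomial.aeval_map_algebraMap] at h1
  exact h1

end proof

/-- **The theorem.** -/
theorem result (q k : ℕ) (w : Fin q → ℂ) (hk : 1 ≤ k) (δ D m A : ℕ) :
    ∃ M E : ℕ, ∀ (ξ : Fin k → ℂ) (H : Fin k → ℕ), (∀ l, Height m A (ξ l)) → (∀ l, ((H l : ℝ) + 2) ^ E ≤ ‖ξ l‖) →
      (Exceptional w D δ ξ H).ncard ≤ M * ∑ l, ∏ l' ∈ Finset.univ.erase l, (2 * H l' + 1) := by
  obtain ⟨r₀, hr₀, hno⟩ := noRel (k := k) w
  obtain ⟨M, E, h⟩ := Pool.Agent.NH25.FR.win hr₀ (fun _ => Pool.Agent.NH25.JM.lfamJ)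
      (Pool.Agent.NH25.JM.repJ ⟨0, hk⟩ (constants w) r₀)
    (fun D δ s => NoRelations w D δ fun l => 1 / s l) (fun δ => δ + k * (2 * δ)) hno δ D m A
  refine ⟨M, E, fun ξ H hξ hH => ?_⟩
  have h1 := h ξ H hξ hH
  simp only [one_div_one_div] at h1
  exact h1

end Pool.Agent.Results.MP_47914d_nt.AlgebraicInvariantWindows
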