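import Pool.Agent.NH25.JM.Main
import Pool.Agent.NH25.FR.Cnt

/-!
# The modular Schanuel conjecture for isogeny classes with algebraic invariants

Let `j` be the modular invariant, `v_1, …, v_k` points of the upper half-plane for which the numbers `j(v_l)` are algebraic, and
`z_l = (a_l v_l + b_l) / (c_l v_l + d_l)` any points equivalent to them under `GL_2^+(ℚ)`; that is, `z_l` belongs to an elliptic
curve which is isogenous to the curve with invariant `j(v_l)`. The numbers `j(z_l)` are algebraic; unless `z_l` is a CM point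
or two of the points are equivalent, the modular Schanuel conjecture predicts that `z_1, …, z_k` are algebraically
independent.

In the starting library (`IsogenyClasses`, `GrowingDegreeIsogenies`) this is studied if the invariants
`j(v_l)` are rational integers. Here the invariants are algebraic numbers of any bounded degree, or quotients of an
algebraic integer by a natural number (so we also treat rational invariants which are not integers). We say that there is
no relation of degree `δ` over the number fields of degree at most `D` (`NoRelations`) if for all points `z_l` as above (there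
is no bound for the degrees of the isogenies, or for the coefficients of the matrices), all number fields `K` of degree
at most `D` and all complex numbers `w_1, …, w_q` which were given in advance, every polynomial of degree at most `δ` over `K`
which vanishes at `2 π i, w_1, …, w_q, z_1, …, z_k` is trivial: it is zero after the substitution of the numbers
`2 π i, w_1, …, w_q`. Since `D` is arbitrary, the field `K` may contain the numbers `j(v_l)`.

**Theorem.** Let `m_l ≥ 1` and `0 < η ≤ 1`. We consider tuples `β = (β_1, …, β_k)` of algebraic integers, `β_l` of degree at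
most `m_l` and with all conjugates bounded by `T`. Their number is at least `c₀ T ^ M`, with `M = ∑ m_l (m_l + 1) / 2`. For all
`w`, `δ`, `D` there are `c > 0` and `C` such that for all `T ≥ 1` and all integers `a_l` in `[1, T ^ (1 - η)]`, for all but
`C T ^ (M - c)` of the tuples there is no relation of degree `δ` over the number fields of degree at most `D` for the
invariants `j(v_l) = β_l / a_l`. Moreover there are functions `d(T) → ∞` and `ε(T) → 0` such that this holds with
`D = δ = d(T)` for all but `ε(T) T ^ M` of the tuples.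

Proof. For `|j(v)|` large, `2 π i z` is a quotient of linear combinations of `F(1 / j)` and `G(1 / j) - t F(1 / j)` with
`exp(t) = j(v)`, where `F = 1 + 60 / j + …` and `F t - G` are the solutions of the Picard-Fuchs equation at `∞`. The general
theorem for G-functions and logarithms over all number fields of bounded degree (`Pool/Agent/NH25/UF`, based on the linear
independence of values of G-functions at translates of an algebraic number, `Pool/Agent/NH25/DL`) applies, and shows that
at all but few points all relations are values of functional relations with constants. The functions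
`F(z_l)`, `G(z_l) - t_l F(z_l)` are algebraically independent over `ℂ(z_1, …, z_k)`
(`Pool/Agent/NH25/JM`), which leaves only the relations between the constants (`Pool/Agent/NH25/FR`).
-/

set_option autoImplicit false

open Filter

namespace Pool.Agent.Results.MP_47914d_nt.AlgebraicInvariants

/-- the normalised Eisenstein series of weight `4` -/
noncomputable def E4 (τ : ℂ) : ℂ :=
  1 + 240 * ∑' m : ℕ, ((ArithmeticFunction.sigma 3 (m + 1) : ℕ) : ℂ) *
    Complex.exp (2 * (Real.pi : ℂ) * Complex.I * ((m : ℂ) + 1) * τ)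

/-- the normalised Eisenstein series of weight `6` -/
noncomputable def E6 (τ : ℂ) : ℂ :=
  1 - 504 * ∑' m : ℕ, ((ArithmeticFunction.sigma 5 (m + 1) : ℕ) : ℂ) *
    Complex.exp (2 * (Real.pi : ℂ) * Complex.I * ((m : ℂ) + 1) * τ)

/-- the modular invariant `j = q⁻¹ + 744 + 196884 q + ⋯` -/
noncomputable def J (τ : ℂ) : ℂ := 1728 * E4 τ ^ 3 / (E4 τ ^ 3 - E6 τ ^ 2)

/-- `z` is equivalent under `GL_2^+(ℚ)` to a point `v` of the upper half-plane with `j(v) = x`. -/
def Isogenous (x z : ℂ) : Prop :=
  ∃ v : ℂ, 0 < v.im ∧ J v = x ∧ ∃ a b c d : ℚ, 0 < a * d - b * c ∧ z = ((a : ℂ) * v + b) / ((c : ℂ) * v + d)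

/-- The numbers `2 π i, w_1, …, w_q`. -/
noncomputable def constants {q : ℕ} (w : Fin q → ℂ) : Option (Fin q) → ℂ := fun o => o.elim (2 * Real.pi * Complex.I) w

/-- The numbers `2 π i, w_1, …, w_q` and `k` variables. -/
noncomputable def generic {q k : ℕ} (w : Fin q → ℂ) : Option (Fin q) ⊕ Fin k → MvPolynomial (Fin k) ℂ :=
  Sum.elim (fun o => MvPolynomial.C (constants w o)) MvPolynomial.X

/-- Whenever `z_1, …, z_k` are isogenous to points of the upper half-plane with the invariants `x_1, …, x_k`, every polynomial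
of degree at most `δ` over a number field of degree at most `D` which vanishes at `2 π i, w_1, …, w_q, z_1, …, z_k` is zero after
the substitution of `2 π i, w_1, …, w_q`. -/
def NoRelations {q k : ℕ} (w : Fin q → ℂ) (D δ : ℕ) (x : Fin k → ℂ) : Prop :=
  ∀ z : Fin k → ℂ, (∀ l, Isogenous (x l) (z l)) →
  ∀ K : IntermediateField ℚ ℂ, FiniteDimensional ℚ K → Module.finrank ℚ K ≤ D →
  ∀ P : MvPolynomial (Option (Fin q) ⊕ Fin k) K, P.totalDegree ≤ δ →
    MvPolynomial.aeval (Sum.elim (constants w) z) P = 0 → MvPolynomial.aeval (generic (k := k) w) P = 0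

/-- algebraic integers of degree at most `m` all of whose conjugates have absolute value at most `T` -/
def House (m T : ℕ) (ξ : ℂ) : Prop :=
  IsIntegral ℤ ξ ∧ (minpoly ℚ ξ).natDegree ≤ m ∧ ∀ z : ℂ, Polynomial.aeval z (minpoly ℚ ξ) = 0 → ‖z‖ ≤ T

/-- the tuples `β` -/
def Tuples {k : ℕ} (m : Fin k → ℕ) (T : ℕ) : Set (Fin k → ℂ) := {β | ∀ l, House (m l) T (β l)}

/-- the exponent `∑ m_l (m_l + 1) / 2` -/
def size {k : ℕ} (m : Fin k → ℕ) : ℕ := ∑ l, m l * (m l + 1) / 2

/-- the tuples `β` for which there are relations for the invariants `β_l / a_l` -/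
def Exceptional {q k : ℕ} (w : Fin q → ℂ) (D δ : ℕ) (m : Fin k → ℕ) (T : ℕ) (a : Fin k → ℕ) : Set (Fin k → ℂ) :=
  {β | β ∈ Tuples m T ∧ ¬ NoRelations w D δ fun l => β l / (a l : ℂ)}

section proof

open Pool.Agent.NH25.DL Pool.Agent.Y921.DB Pool.Agent.Y916 Pool.Agent.NH25.JM Pool.Agent.NH25.FR

lemma J_eq : J = Pool.Agent.TH21.MS.jj := by
  have h4 : E4 = Pool.Agent.TH21.MS.E4 := funext Pool.Agent.Y120.J.E4_same
  have h6 : E6 = Pool.Agent.TH21.MS.E6 := funext Pool.Agent.Y120.J.E6_same
  funext τ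
  unfold J Pool.Agent.TH21.MS.jj
  rw [h4, h6]

/-- the radius -/
theorem noRel {q k : ℕ} (w : Fin q → ℂ) : ∃ r₀ : ℝ, 0 < r₀ ∧ ∀ r : ℝ, 0 < r → r ≤ r₀ → ∀ (D δ : ℕ) (s : Fin k → ℂ),
    (∀ l, s l ≠ 0) → Pool.Agent.NH25.UF.Pnt D (Pc (constants w) fJ) r (δ + k * (2 * δ)) s →
    NoRelations w D δ fun l => 1 / s l := by
  obtain ⟨r₀, hr₀, h⟩ := relJ (k := k) (cw := constants w) (o₀ := none) rfl
  refine ⟨r₀, hr₀, fun r hr hrr D δ s hs hP z hz K hK hKD P hPd h0 => ?_⟩
  have h1 := h r hr hrr D δ s hs hP z (fun l => by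
    obtain ⟨v, hv, hvx, hv2⟩ := hz l
    rw [J_eq] at hvx
    exact ⟨v, hv, hvx, hv2⟩) K hK hKD (P.map (algebraMap K ℂ))
    ((Finset.sup_mono (MvPolynomial.support_map_subset _ _)).trans hPd) (fun e => by
      rw [MvPolynomial.coeff_map]
      exact (P.coeff e).2) (by
      rw [← MvPolynomial.aeval_eq_eval, MvPolynomial.aeval_map_algebraMap]
      exact h0)
  unfold sp at h1
  rw [MvPolynomial.aeval_map_algebraMap] at h1
  exact h1

end proof

/-- **The theorem.** -/
theorem result :
    -- the number of the tuples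
    (∀ (k : ℕ) (m : Fin k → ℕ), (∀ l, 1 ≤ m l) → ∃ c₀ : ℝ, 0 < c₀ ∧ ∀ T : ℕ, 1 ≤ T → (Tuples m T).Finite ∧
      c₀ * (T : ℝ) ^ size m ≤ ((Tuples m T).ncard : ℝ)) ∧
    -- almost all tuples of algebraic invariants
    (∀ (q k : ℕ) (w : Fin q → ℂ) (m : Fin k → ℕ) (η : ℝ), 1 ≤ k → (∀ l, 1 ≤ m l) → 0 < η → η ≤ 1 →
      (∀ δ D : ℕ, ∃ c C : ℝ, 0 < c ∧ ∀ T : ℕ, 1 ≤ T →
        ∀ a : Fin k → ℕ, (∀ l, 1 ≤ a l ∧ (a l : ℝ) ≤ (T : ℝ) ^ (1 - η)) →
        ((Exceptional w D δ m T a).ncard : ℝ) ≤ C * (T : ℝ) ^ ((size m : ℝ) - c)) ∧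
      (∃ (d : ℕ → ℕ) (ε : ℕ → ℝ), Tendsto d atTop atTop ∧ Tendsto ε atTop (nhds 0) ∧
        ∀ T : ℕ, 1 ≤ T → ∀ a : Fin k → ℕ, (∀ l, 1 ≤ a l ∧ (a l : ℝ) ≤ (T : ℝ) ^ (1 - η)) →
        ((Exceptional w (d T) (d T) m T a).ncard : ℝ) ≤ ε T * (T : ℝ) ^ size m)) := by
  refine ⟨fun k m hm => Pool.Agent.NH25.FR.many_tuples m hm, fun q k w m η hk hm hη hη1 => ?_⟩
  obtain ⟨r₀, hr₀, hno⟩ := noRel (k := k) w
  have hmain : ∀ δ D : ℕ, ∃ c C : ℝ, 0 < c ∧ ∀ T : ℕ, 1 ≤ T →
        ∀ a : Fin k → ℕ, (∀ l, 1 ≤ a l ∧ (a l : ℝ) ≤ (T : ℝ) ^ (1 - η)) →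
        ((Exceptional w D δ m T a).ncard : ℝ) ≤ C * (T : ℝ) ^ ((size m : ℝ) - c) := by
    intro δ D
    obtain ⟨c, C, hc, h⟩ := Pool.Agent.NH25.FR.cnt hr₀ (fun _ => Pool.Agent.NH25.JM.lfamJ)
      (Pool.Agent.NH25.JM.repJ ⟨0, hk⟩ (constants w) r₀)
      (fun D δ s => NoRelations w D δ fun l => 1 / s l) (fun δ => δ + k * (2 * δ)) hno m hη hη1 δ D
    refine ⟨c, C, hc, fun T hT a ha => ?_⟩
    have h1 := h T hT a ha
    simp only [one_div_div] at h1
    exact h1
  exact ⟨hmain, Pool.Agent.NH25.FR.growing (fun T (a : Fin k → ℕ) => ∀ l, 1 ≤ a l ∧ (a l : ℝ) ≤ (T : ℝ) ^ (1 - η))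
    (fun D T a => ((Exceptional w D D m T a).ncard : ℝ)) (size m) fun D => hmain D D⟩

end Pool.Agent.Results.MP_47914d_nt.AlgebraicInvariants
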