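import Pool.Agent.NH23.CxE

/-!
# Modular Lindemann-Weierstrass for complex fields with very good approximations in imaginary quadratic fields

Let `S` be a set of complex numbers such that every finite subset `{ξ_1, …, ξ_m}` has extremely good simultaneous
approximations by elements `a_i` of imaginary quadratic fields `ℚ(√(-D))`, of height at most `q` and with
`|ξ_i - a_i| ≤ exp (-q ^ κ)`, and such that `ξ_k` is much better approximated than `ξ_i` for `i < k`. Either the field
`ℚ(√(-D))` may vary with the approximation (then `D₀ = 0` and `K = ℚ(S)`), or it is a fixed field `ℚ(√(-D₀))`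
(then `K = ℚ(√(-D₀), S)`).

We prove: if `z_1, …, z_n` are points of `K` in the upper half-plane, not CM points and pairwise inequivalent under
`GL₂⁺(ℚ)`, then `j(z_1), …, j(z_n)` are algebraically independent over `K`. In particular the modular Schanuel
conjecture holds for all points of `K`. For `S = {z}` this says: if `z` is a point of the upper half-plane with extremely
good approximations by CM points (of arbitrary discriminants), and `R_1, …, R_n` are rational functions over `ℚ` whose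
values at `z` are pairwise inequivalent points of the upper half-plane, then `z, j(R_1(z)), …, j(R_n(z))` are
algebraically independent.

`MP_47914d_nt.QuadraticOverLiouville` treats points quadratic over real fields `ℚ(S)`; there the approximations of the real
and imaginary parts have to be hierarchical, while here there is no condition of this kind on the real and imaginary
parts of one number. The explicit example is the set of the numbers `∑_l (2 + i) ^ l 2 ^ (-e_(⌊2 ^ l t⌋))`,
`1 ≤ t < 2`, with approximations in `ℚ(i)`.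
-/

set_option autoImplicit false

open Pool.Agent

namespace Pool.Agent.Results.MP_47914d_nt.ComplexLiouvilleFields

/-- The lattice `ℤ + ℤ τ`. -/
noncomputable def lattice (τ : ℂ) (h : 0 < τ.im) : PeriodPair where
  ω₁ := 1
  ω₂ := τ
  indep := (Y685.LL ⟨τ, h⟩).indep

/-- The modular invariant `j = 1728 g₂³ / (g₂³ - 27 g₃²)` on the upper half-plane. -/
noncomputable def j (τ : ℂ) : ℂ :=
  if h : 0 < τ.im then 1728 * (lattice τ h).g₂ ^ 3 / ((lattice τ h).g₂ ^ 3 - 27 * (lattice τ h).g₃ ^ 2) else 0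

/-- `z` is a root of a nonzero quadratic polynomial with integer coefficients. -/
def CM (z : ℂ) : Prop := ∃ a b c : ℤ, (a ≠ 0 ∨ b ≠ 0 ∨ c ≠ 0) ∧ (a : ℂ) * z ^ 2 + b * z + c = 0

/-- `w = (a z + b) / (c z + d)` with rational `a, b, c, d` and `a d - b c > 0`. -/
def Equivalent (z w : ℂ) : Prop := ∃ a b c d : ℚ, 0 < a * d - b * c ∧ w * (c * z + d) = a * z + b

/-- The square root `i √D` of `-D`. -/
noncomputable def root (D : ℕ) : ℂ := Complex.I * (Real.sqrt D : ℂ)

/-- The element `(u + v √(-D)) / q` of `ℚ(√(-D))`. -/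
noncomputable def element (D q : ℕ) (u v : ℤ) : ℂ := (u + v * root D) / q

/-- For every `κ` there are `q ≥ 2`, `1 ≤ D ≤ q` (with `D = D₀` if `D₀ ≠ 0`) and elements `a_i` of
`(ℤ + ℤ √(-D)) / q` with `0 < |ξ_i - a_i| ≤ exp (-q ^ κ)` for all `i` and `|ξ_k - a_k| ≤ |ξ_i - a_i| ^ κ` for all
`i < k`. -/
def Approximable (D₀ : ℕ) {m : ℕ} (ξ : Fin m → ℂ) : Prop :=
  ∀ κ : ℕ, ∃ (D q : ℕ) (u v : Fin m → ℤ), 2 ≤ q ∧ 1 ≤ D ∧ D ≤ q ∧ (D₀ = 0 ∨ D = D₀) ∧
    (∀ i, ξ i ≠ element D q (u i) (v i) ∧ ‖ξ i - element D q (u i) (v i)‖ ≤ Real.exp (-(q : ℝ) ^ κ)) ∧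
    ∀ i k, i < k → ‖ξ k - element D q (u k) (v k)‖ ≤ ‖ξ i - element D q (u i) (v i)‖ ^ κ

/-- Every finite subset can be enumerated in such a way that the tuple is approximable. -/
def UltraLiouville (D₀ : ℕ) (S : Set ℂ) : Prop :=
  ∀ T : Finset ℂ, (T : Set ℂ) ⊆ S → ∃ (m : ℕ) (ξ : Fin m → ℂ), Set.range ξ = T ∧ Approximable D₀ ξ

/-- The subfield `ℚ(√(-D₀), S)` of `ℂ`. -/
noncomputable def field (D₀ : ℕ) (S : Set ℂ) : IntermediateField ℚ ℂ :=
  IntermediateField.adjoin ℚ (insert (root D₀) S)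

/-- `e_0 = 1`, `e_(k + 1) = 2 ^ ((k + 2) e_k)`. -/
def e : ℕ → ℕ
  | 0 => 1
  | k + 1 => 2 ^ ((k + 2) * e k)

/-- The number `∑_l (2 + i) ^ l 2 ^ (-e_(⌊2 ^ l t⌋))`. -/
noncomputable def number (t : ℝ) : ℂ := ∑' l : ℕ, (2 + Complex.I) ^ l * (1 / 2 : ℂ) ^ e ⌊(2 : ℝ) ^ l * t⌋₊

theorem j_eq {τ : ℂ} (h : 0 < τ.im) : j τ = Y776.jf τ := by
  have h1 : Y685.LC τ = lattice τ h := by
    rw [Y685.LC, UpperHalfPlane.ofComplex_apply_of_im_pos h]
    rfl
  rw [j, dif_pos h, Y776.jf, h1]

theorem e_eq (k : ℕ) : e k = NH23.Core.ee k := by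
  induction k with
  | zero => rfl
  | succ k ih => rw [e, ih, NH23.Core.ee]

theorem number_eq (t : ℝ) : number t = NH23.Cx.mu t := by
  rw [number, NH23.Cx.mu]
  exact tsum_congr fun l => by rw [e_eq]

/-- **Theorem.** Let `S` be a set of complex numbers all of whose finite subsets are approximable, and `K = ℚ(√(-D₀), S)`.
Then `S` is algebraically independent over `ℚ`, and for all points `z_1, …, z_n` of `K` in the upper half-plane which are
not CM and pairwise inequivalent, `j(z_1), …, j(z_n)` are algebraically independent over `K`. The set of the numbers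
`∑_l (2 + i) ^ l 2 ^ (-e_(⌊2 ^ l t⌋))`, `1 ≤ t < 2`, is such a set `S` for `D₀ = 1`, and it has the cardinality of the
continuum. -/
theorem result :
    (∀ (D₀ : ℕ) (S : Set ℂ), UltraLiouville D₀ S → AlgebraicIndependent ℚ ((↑) : S → ℂ) ∧
      ∀ (n : ℕ) (z : Fin n → ℂ), (∀ i, 0 < (z i).im) → (∀ i, z i ∈ field D₀ S) →
        (∀ i, ¬ CM (z i)) → (∀ i k, i ≠ k → ¬ Equivalent (z i) (z k)) →
        AlgebraicIndependent (field D₀ S) fun i => j (z i)) ∧
    UltraLiouville 1 (number '' Set.Ico 1 2) ∧ Cardinal.mk (number '' Set.Ico 1 2) = Cardinal.continuum := by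
  have hS1 : number '' Set.Ico 1 2 = NH23.Cx.S1 := by
    rw [NH23.Cx.S1]
    congr 1
    funext t
    exact number_eq t
  refine ⟨fun D₀ S hS => ⟨NH23.Cx.HierC.algInd hS, fun n z him hz hcm hine => ?_⟩, ?_, ?_⟩
  · have h1 : (fun i => j (z i)) = fun i => Y776.jf (z i) := funext fun i => j_eq (him i)
    rw [h1]
    refine NH23.Cx.main_cx hS him hz ?_ ?_
    · intro i a b c hroot
      by_contra ha
      exact hcm i ⟨a, b, c, Or.inl ha, hroot⟩
    · intro i k hik a b c d hdet heq
      exact hine i k hik ⟨a, b, c, d, hdet, heq⟩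
  · rw [hS1]
    exact NH23.Cx.hierC_S1
  · rw [hS1]
    exact NH23.Cx.mk_S1

end Pool.Agent.Results.MP_47914d_nt.ComplexLiouvilleFields
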