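import Pool.Agent.NH23.Ind

/-!
# Modular Lindemann-Weierstrass for points quadratic over a field generated by Liouville-type numbers

Let `S` be a set of real numbers such that every finite subset `{ξ_1, …, ξ_m}` has extremely good simultaneous rational
approximations `p_i / q` (better than `exp (-q ^ κ)` for every `κ`), `ξ_k` being much better approximated than `ξ_i` for
`i < k`. A comeagre set of `m`-tuples of real numbers has this property, and we give an explicit set `S` with the
cardinality of the continuum. Let `K = ℚ(S)`, a real field, of infinite transcendence degree in the example.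

We prove: if `z_1, …, z_n` are points of the upper half-plane which are quadratic over `K`, not CM points and pairwise
inequivalent under `GL₂⁺(ℚ)`, then `j(z_1), …, j(z_n)` are algebraically independent over `K`. In particular the
modular Schanuel conjecture holds for all these points.

Proof: the points are values at `ξ` of algebraic functions `T_i(x)` whose values at rational points `x` are CM points. A
relation between the `j(z_i)` over `K` gives a relation `f(ξ) = 0`, where `f(x) = P(x, j(T_1(x)), …, j(T_n(x)))`, and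
`f(p / q)` is very small. It is a polynomial in singular moduli, whose degrees are at most `q ^ c` and whose conjugates are
at most `exp (q ^ c)`; a Liouville estimate yields `f(p / q) = 0` for all these approximations. Since the approximations
are hierarchical, the analytic function `f` vanishes identically near `ξ`. On a suitable line through `ξ` the functions
`T_i` are nonconstant and inequivalent, and the functions `j(T_i)` are algebraically independent over `ℂ(x)`: for two
functions we prove it with Schwarzian derivatives and the action of isogenies near a rational boundary point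
(`Pool.Agent.NH23.Pair.TwoA.jind`), and the step from two to `n` functions is an Ax-Schanuel theorem
(`Pool.Agent.Y776.AxJ.loc_all`).
-/

set_option autoImplicit false

open Pool.Agent

namespace Pool.Agent.Results.MP_47914d_nt.QuadraticOverLiouville

/-- The lattice `ℤ + ℤ τ`. -/
noncomputable def lattice (τ : ℂ) (h : 0 < τ.im) : PeriodPair where
  ω₁ := 1
  ω₂ := τ
  indep := (Y685.LL ⟨τ, h⟩).indep

/-- The modular invariant `j = 1728 g₂³ / (g₂³ - 27 g₃²)` on the upper half-plane. -/
noncomputable def j (τ : ℂ) : ℂ :=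
  if h : 0 < τ.im then 1728 * (lattice τ h).g₂ ^ 3 / ((lattice τ h).g₂ ^ 3 - 27 * (lattice τ h).g₃ ^ 2) else 0

/-- `z` is a root of a nonzero quadratic polynomial with integer coefficients. -/
def CM (z : ℂ) : Prop := ∃ a b c : ℤ, (a ≠ 0 ∨ b ≠ 0 ∨ c ≠ 0) ∧ (a : ℂ) * z ^ 2 + b * z + c = 0

/-- `w = (a z + b) / (c z + d)` with rational `a, b, c, d` and `a d - b c > 0`. -/
def Equivalent (z w : ℂ) : Prop := ∃ a b c d : ℚ, 0 < a * d - b * c ∧ w * (c * z + d) = a * z + b

/-- For every `κ` there are fractions `p_i / q`, `q ≥ 2`, with `0 < |ξ_i - p_i / q| ≤ exp (-q ^ κ)` for all `i` and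
`|ξ_k - p_k / q| ≤ |ξ_i - p_i / q| ^ κ` for all `i < k`. -/
def Approximable {m : ℕ} (ξ : Fin m → ℝ) : Prop :=
  ∀ κ : ℕ, ∃ (q : ℕ) (p : Fin m → ℤ), 2 ≤ q ∧
    (∀ i, ξ i ≠ (p i : ℝ) / q ∧ |ξ i - p i / q| ≤ Real.exp (-(q : ℝ) ^ κ)) ∧
    ∀ i k, i < k → |ξ k - p k / q| ≤ |ξ i - p i / q| ^ κ

/-- Every finite subset can be enumerated in such a way that the tuple is approximable. -/
def UltraLiouville (S : Set ℝ) : Prop :=
  ∀ T : Finset ℝ, (T : Set ℝ) ⊆ S → ∃ (m : ℕ) (ξ : Fin m → ℝ), Set.range ξ = T ∧ Approximable ξ

/-- The field `ℚ(S)` as a subfield of `ℂ`. -/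
noncomputable def field (S : Set ℝ) : IntermediateField ℚ ℂ :=
  IntermediateField.adjoin ℚ ((fun x : ℝ => (x : ℂ)) '' S)

/-- `e_0 = 1`, `e_(k + 1) = 2 ^ ((k + 2) e_k)`. -/
def e : ℕ → ℕ
  | 0 => 1
  | k + 1 => 2 ^ ((k + 2) * e k)

/-- The number `∑_l 2 ^ (-e_(⌊2 ^ l t⌋))`. -/
noncomputable def number (t : ℝ) : ℝ := ∑' l : ℕ, (1 / 2 : ℝ) ^ e ⌊(2 : ℝ) ^ l * t⌋₊

theorem j_eq {τ : ℂ} (h : 0 < τ.im) : j τ = Y776.jf τ := by
  have h1 : Y685.LC τ = lattice τ h := by
    rw [Y685.LC, UpperHalfPlane.ofComplex_apply_of_im_pos h]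
    rfl
  rw [j, dif_pos h, Y776.jf, h1]

theorem e_eq (k : ℕ) : e k = NH23.Core.ee k := by
  induction k with
  | zero => rfl
  | succ k ih => rw [e, ih, NH23.Core.ee]

theorem number_eq (t : ℝ) : number t = NH23.Core.lam t := by
  rw [number, NH23.Core.lam]
  exact tsum_congr fun l => by rw [e_eq]

/-- **Theorem.** Let `S` be a set of real numbers all of whose finite subsets are approximable. Then `S` is
algebraically independent over `ℚ`, and for all points `z_1, …, z_n` of the upper half-plane which are quadratic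
over `K = ℚ(S)`, not CM and pairwise inequivalent, `j(z_1), …, j(z_n)` are algebraically independent over `K`. The set
of the numbers `∑_l 2 ^ (-e_(⌊2 ^ l t⌋))`, `1 ≤ t < 2`, is such a set `S`, and it has the cardinality of the continuum. -/
theorem result :
    (∀ S : Set ℝ, UltraLiouville S → AlgebraicIndependent ℚ ((↑) : S → ℝ) ∧
      ∀ (n : ℕ) (z : Fin n → ℂ), (∀ i, 0 < (z i).im) →
        (∀ i, ∃ a b c : field S, (a ≠ 0 ∨ b ≠ 0 ∨ c ≠ 0) ∧ (a : ℂ) * z i ^ 2 + b * z i + c = 0) →
        (∀ i, ¬ CM (z i)) → (∀ i k, i ≠ k → ¬ Equivalent (z i) (z k)) →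
        AlgebraicIndependent (field S) fun i => j (z i)) ∧
    UltraLiouville (number '' Set.Ico 1 2) ∧ Cardinal.mk (number '' Set.Ico 1 2) = Cardinal.continuum := by
  have hS0 : number '' Set.Ico 1 2 = NH23.Core.S0 := by
    rw [NH23.Core.S0]
    congr 1
    funext t
    exact number_eq t
  refine ⟨fun S hS => ⟨NH23.Core.Hier.algInd hS, fun n z him hq hcm hine => ?_⟩, ?_, ?_⟩
  · have h1 : (fun i => j (z i)) = fun i => Y776.jf (z i) := funext fun i => j_eq (him i)
    rw [h1]
    refine NH23.Core.main_real hS him ?_ ?_ ?_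
    · intro i
      obtain ⟨a, b, c, hne, hroot⟩ := hq i
      refine ⟨a, b, c, a.2, b.2, c.2, ?_, hroot⟩
      rcases hne with h | h | h
      · exact Or.inl fun h0 => h (Subtype.ext h0)
      · exact Or.inr (Or.inl fun h0 => h (Subtype.ext h0))
      · exact Or.inr (Or.inr fun h0 => h (Subtype.ext h0))
    · intro i a b c hroot
      by_contra ha
      exact hcm i ⟨a, b, c, Or.inl ha, hroot⟩
    · intro i k hik a b c d hdet heq
      exact hine i k hik ⟨a, b, c, d, hdet, heq⟩
  · rw [hS0]
    exact NH23.Core.hier_S0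
  · rw [hS0]
    exact NH23.Core.mk_S0

end Pool.Agent.Results.MP_47914d_nt.QuadraticOverLiouville
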